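import Pool.Agent.N571.TLF.Pairs

/-!
# Vassiliev invariants of one order separate the links obtained by inserting powers of braids

Diagrams (starting library `Pool.Agent.H891R2.Jones.Diagram`): `Diagram P` (oriented link diagrams with
marked points `P`, planar or not), `Diagram.IsClosed` (the pieces fit together to closed oriented curves),
`Diagram.fPoly` (the normalised bracket `(-A^{-3})^{w(D)} ⟨D⟩`, the Jones polynomial in the variable
`A = t^{-1/4}`), `Outer m` (the part of an oriented diagram outside a box through which `m` strands run, with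
arbitrary directions `up`), `Outer.close` (fills the rest of the box with vertical strands).  Starting library
`Pool.Agent.W639.RB.Defs`: `Letter m` (the letters `σ_i^{±1}` of the braid group on `m` strands; the second
component of a letter is the number `i` of the first one of the two strands, counted from `0`).

Vassiliev invariants (starting library `Pool.Agent.H832R3.VJ.Defs`): `Dia` (an oriented diagram with the finite set
of its marked points), `Separated d X Y` (some integer valued Vassiliev invariant of oriented links of order at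
most `d` has different values on `X` and `Y`).

Definitions of `Pool.Agent.Y463.SK.Defs` (starting library), for words `w` (lists of letters): `powW w n` (the
power `w^n`, `n ∈ ℤ`), `permW w` (the permutation of the strands), `IsPure w` (`permW w = 1`), `dia O w` (the
diagram obtained by drawing `w` in the box of `O` and filling the rest of the box with vertical strands),
`multiW w v n = w_1^{n_1} v_1 w_2^{n_2} v_2 ⋯ w_k^{n_k} v_k`.

New definitions (`Pool.Agent.N571.TLF`): `DD O w` is the diagram `dia O w` as an element of `Dia`;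
`expo Λ s q` is the vector of the exponents `n_i = ∑_j Λ_{ij} q_j + s_i`;
`bnd Λ b A = ∑_j (∏_{i : Λ_{ij} ≠ 0} C(b_i, ⌊b_i/2⌋)) ∏_{l ≠ j} |A_l|`.

Proof.  Modulo `A - 1` a pure braid acts trivially in the Temperley-Lieb algebra.  So, along every direction of the
space of exponents, the normalised brackets satisfy a recurrence `Δ^D f = ∑ c_j Δ^j f` with `(A - 1)^{D-j} ∣ c_j`, and the
Taylor coefficients at `A = 1`, which are Vassiliev invariants, are polynomial functions on `ℤ^k` (on every residue
class modulo `m!`).  By Hilbert's basis theorem finitely many of these polynomials decide whether all the Taylor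
coefficients agree.  The number of the coincidences is bounded by the sharper form of the recurrences
(annihilating polynomials of degree `C(b, ⌊b/2⌋)` from the filtration of the Temperley-Lieb algebra by the
number of cups).
-/

set_option autoImplicit false

namespace Pool.Agent.Results.MP_31fd3b_gt.BraidPowersOneOrder

open Finset LaurentPolynomial Pool.Agent.H891R2.Jones Pool.Agent.W639.RB Pool.Agent.Y463.SK
  Pool.Agent.H832R3.VJ Pool.Agent.N571.TLF

open Classical in
/-- Let `O` and `O'` be the parts of two link diagrams outside boxes through which `m` and `m'` strands run, let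
`w_1, …, w_k`, `v_1, …, v_k` be arbitrary braid words on `m` strands and `w'_1, …, w'_{k'}`,
`v'_1, …, v'_{k'}` arbitrary braid words on `m'` strands.  For `n ∈ ℤ^k` let `D(n)` be the diagram obtained by
drawing the braid `w_1^{n_1} v_1 w_2^{n_2} v_2 ⋯ w_k^{n_k} v_k` in the box of `O`, and define `D'(n')`, `n' ∈ ℤ^{k'}`, in
the same way (`O' = O`, `w' = w`, `v' = v` is allowed).

* `D(n)` is a closed oriented diagram if the permutation of the braid preserves the directions of the strands
  (likewise `D'(n')`).
* There is one order `d` such that for all `n ∈ ℤ^k` and all `n' ∈ ℤ^{k'}` the links `D(n)` and `D'(n')` are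
  separated by Vassiliev invariants of order at most `d` if they have different Jones polynomials.
* Let `w_i` only use the `b_i` strands with the numbers `off_i, …, off_i + b_i - 1`, and let `Λ` be an integral
  `k × r` matrix such that all `w_i^{Λ_{ij}}` are pure, `s ∈ ℤ^k`, `D_q = D(Λ q + s)` for `q ∈ ℤ^r`, and similarly for
  `D'_{q'}`, `q' ∈ ℤ^{r'}`.  Either all the links `D_q` and `D'_{q'}` have one and the same Jones polynomial, or for all
  finite sets `A_1, …, A_r`, `A'_1, …, A'_{r'}` of integers at most
  `max (bnd(A) ∏ |A'_l|, ∏ |A_l| bnd'(A'))` of the `∏ |A_l| ∏ |A'_l|` pairs `(D_q, D'_{q'})` with `q ∈ ∏ A_l`,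
  `q' ∈ ∏ A'_l` are not separated by Vassiliev invariants of order at most `d`; here
  `bnd(A) = ∑_j d_j ∏_{l ≠ j} |A_l|`, and `d_j` is the product of the binomial coefficients `C(b_i, ⌊b_i/2⌋)` for those
  `i` with `Λ_{ij} ≠ 0`, which does not depend on `d`, on the words or on the diagrams. -/
theorem result (m k m' k' : ℕ) (hm : 0 < m) (hm' : 0 < m') 
    (O : Outer m) (hO : O.close.IsClosed) (w v : Fin k → List (Letter m)) 
    (O' : Outer m') (hO' : O'.close.IsClosed) (w' v' : Fin k' → List (Letter m')) :
    (∀ n : Fin k → ℤ, (∀ j, O.up (permW (multiW w v n) j) = O.up j) → 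
      (dia O (multiW w v n)).IsClosed) ∧ 
    (∀ n' : Fin k' → ℤ, (∀ j, O'.up (permW (multiW w' v' n') j) = O'.up j) → 
      (dia O' (multiW w' v' n')).IsClosed) ∧ 
    ∃ d : ℕ, 
      (∀ (n : Fin k → ℤ) (n' : Fin k' → ℤ), 
        (dia O (multiW w v n)).fPoly ≠ (dia O' (multiW w' v' n')).fPoly → 
          Separated d (DD O (multiW w v n)) (DD O' (multiW w' v' n'))) ∧ 
      ∀ (off b : Fin k → ℕ), (∀ i, 0 < b i) → (∀ i, off i + b i ≤ m) → 
        (∀ i, ∀ x ∈ w i, off i ≤ x.2 ∧ (x.2 : ℕ) + 1 < off i + b i) → 
      ∀ (off' b' : Fin k' → ℕ), (∀ i, 0 < b' i) → (∀ i, off' i + b' i ≤ m') → 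
        (∀ i, ∀ x ∈ w' i, off' i ≤ x.2 ∧ (x.2 : ℕ) + 1 < off' i + b' i) → 
      ∀ (r r' : ℕ) (Λ : Fin k → Fin r → ℤ) (s : Fin k → ℤ) (Λ' : Fin k' → Fin r' → ℤ) (s' : Fin k' → ℤ), 
        (∀ i j, IsPure (powW (w i) (Λ i j))) → (∀ i j, IsPure (powW (w' i) (Λ' i j))) → 
        (∀ q q', (dia O (multiW w v (expo Λ s q))).fPoly = 
          (dia O' (multiW w' v' (expo Λ' s' q'))).fPoly) ∨
        ∀ (A : Fin r → Finset ℤ) (A' : Fin r' → Finset ℤ), 
          ((Fintype.piFinset A ×ˢ Fintype.piFinset A').filter (fun z => 
            ¬ Separated d (DD O (multiW w v (expo Λ s z.1))) 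
              (DD O' (multiW w' v' (expo Λ' s' z.2))))).card ≤ 
            max (bnd Λ b A * ∏ l, (A' l).card) ((∏ l, (A l).card) * bnd Λ' b' A') := by
  obtain ⟨d, hd⟩ := uniform_pairs hm hm' O w v O' w' v'
  refine ⟨dia_closed O w v hO, dia_closed O' w' v' hO', d, hd, ?_⟩
  intro off b hb hoff hw off' b' hb' hoff' hw' r r' Λ s Λ' s' hΛ hΛ'
  refine (pair_count hm hm' O w v O' w' v' Λ s hΛ off b hb hoff hw Λ' s' hΛ' off' b' hb' hoff' 
    hw').imp id fun h A A' => le_trans (Finset.card_le_card fun z hz => ?_) (h A A')
  rw [Finset.mem_filter] at hz ⊢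
  refine ⟨hz.1, ?_⟩
  by_contra hne
  exact hz.2 (hd _ _ hne)

end Pool.Agent.Results.MP_31fd3b_gt.BraidPowersOneOrder
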