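import Pool.Agent.N571.TLF.Pairs

/-!
# Vassiliev invariants of one order detect knottedness in families with powers of arbitrary braids

Diagrams (starting library `Pool.Agent.H891R2.Jones.Diagram`): `Diagram P` (oriented link diagrams with
marked points `P`, planar or not), `Diagram.IsClosed` (the pieces fit together to closed oriented curves),
`Diagram.fPoly` (the normalised bracket `(-A^{-3})^{w(D)} ⟨D⟩`, the Jones polynomial in the variable
`A = t^{-1/4}`), `Outer m` (the part of an oriented diagram outside a box through which `m` strands run, with
arbitrary directions `up`), `Outer.close` (fills the rest of the box with vertical strands).  Starting library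
`Pool.Agent.W639.RB.Defs`: `Letter m` (the letters `σ_i^{±1}` of the braid group on `m` strands; the second
component of a letter is the number `i` of the first one of the two strands, counted from `0`).

Vassiliev invariants (starting library `Pool.Agent.H832R3.VJ.Defs`): `Dia` (an oriented diagram with the finite set
of its marked points), `Separated d X Y` (some integer valued Vassiliev invariant of oriented links of order at
most `d` has different values on `X` and `Y`), `unknot`.

Definitions of `Pool.Agent.Y463.SK.Defs` (starting library), for words `w` (lists of letters): `powW w n` (the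
power `w^n`, `n ∈ ℤ`), `permW w` (the permutation of the strands), `IsPure w` (`permW w = 1`), `dia O w` (the
diagram obtained by drawing `w` in the box of `O` and filling the rest of the box with vertical strands),
`multiW w v n = w_1^{n_1} v_1 w_2^{n_2} v_2 ⋯ w_k^{n_k} v_k`.

New definitions (`Pool.Agent.N571.TLF`): `DD O w` is the diagram `dia O w` as an element of `Dia`;
`expo Λ s q` is the vector of the exponents `n_i = ∑_j Λ_{ij} q_j + s_i`;
`bnd Λ b A = ∑_j (∏_{i : Λ_{ij} ≠ 0} C(b_i, ⌊b_i/2⌋)) ∏_{l ≠ j} |A_l|`.

Proof.  Modulo `A - 1` a pure braid acts trivially in the Temperley-Lieb algebra.  So, along every direction of the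
space of exponents, the normalised brackets satisfy a recurrence `Δ^D f = ∑ c_j Δ^j f` with `(A - 1)^{D-j} ∣ c_j`, and the
Taylor coefficients at `A = 1`, which are Vassiliev invariants, are polynomial functions on `ℤ^k` (on every residue
class modulo `m!`).  By Hilbert's basis theorem finitely many of these polynomials decide whether all the Taylor
coefficients are those of the unknot.  The number of the undetected members is bounded by the sharper form of the
recurrences (annihilating polynomials of degree `C(b, ⌊b/2⌋)` from the filtration of the Temperley-Lieb algebra by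
the number of cups).
-/

set_option autoImplicit false

namespace Pool.Agent.Results.MP_5f6b43_gt.BraidPowersOneOrder

open Finset LaurentPolynomial Pool.Agent.H891R2.Jones Pool.Agent.W639.RB Pool.Agent.Y463.SK
  Pool.Agent.H832R3.VJ Pool.Agent.N571.TLF

open Classical in
/-- Let `O` be the part of a link diagram outside a box through which `m` strands run, and let `w_1, …, w_k`,
`v_1, …, v_k` be arbitrary braid words on `m` strands.  For `n ∈ ℤ^k` let `D(n)` be the diagram obtained by drawing the
braid `w_1^{n_1} v_1 w_2^{n_2} v_2 ⋯ w_k^{n_k} v_k` in the box.

* `D(n)` is a closed oriented diagram if the permutation of the braid preserves the directions of the strands.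
* There is one order `d` such that for all `n ∈ ℤ^k` the link `D(n)` is separated from the unknot by Vassiliev
  invariants of order at most `d` if its Jones polynomial is not `1`.
* Let `w_i` only use the `b_i` strands with the numbers `off_i, …, off_i + b_i - 1`, let `Λ` be an integral `k × r`
  matrix such that all `w_i^{Λ_{ij}}` are pure (no condition if the `w_i` are pure), and `s ∈ ℤ^k`.  Either all the links
  `D(Λ q + s)`, `q ∈ ℤ^r`, have the Jones polynomial `1`, or for all finite sets `A_1, …, A_r` of integers at most
  `∑_j d_j ∏_{l ≠ j} |A_l|` of the `∏_l |A_l|` links `D(Λ q + s)`, `q ∈ A_1 × ⋯ × A_r`, are not separated from the unknot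
  by Vassiliev invariants of order at most `d`; here `d_j` is the product of the binomial coefficients
  `C(b_i, ⌊b_i/2⌋)` for those `i` with `Λ_{ij} ≠ 0`, which does not depend on `d`, on the words or on the diagram. -/
theorem result (m k : ℕ) (hm : 0 < m) (O : Outer m) (hO : O.close.IsClosed) 
    (w v : Fin k → List (Letter m)) :
    (∀ n : Fin k → ℤ, (∀ j, O.up (permW (multiW w v n) j) = O.up j) → 
      (dia O (multiW w v n)).IsClosed) ∧ 
    ∃ d : ℕ, 
      (∀ n : Fin k → ℤ, (dia O (multiW w v n)).fPoly ≠ 1 → Separated d (DD O (multiW w v n)) unknot) ∧ 
      ∀ (off b : Fin k → ℕ), (∀ i, 0 < b i) → (∀ i, off i + b i ≤ m) → 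
        (∀ i, ∀ x ∈ w i, off i ≤ x.2 ∧ (x.2 : ℕ) + 1 < off i + b i) → 
      ∀ (r : ℕ) (Λ : Fin k → Fin r → ℤ) (s : Fin k → ℤ), (∀ i j, IsPure (powW (w i) (Λ i j))) → 
        (∀ q, (dia O (multiW w v (expo Λ s q))).fPoly = 1) ∨
        ∀ A : Fin r → Finset ℤ, 
          ((Fintype.piFinset A).filter (fun q => 
            ¬ Separated d (DD O (multiW w v (expo Λ s q))) unknot)).card ≤ bnd Λ b A := by
  obtain ⟨d, hd⟩ := uniform_unknot hm O w v
  refine ⟨dia_closed O w v hO, d, hd, ?_⟩
  intro off b hb hoff hw r Λ s hΛ
  refine (family hm O w v Λ s hΛ off b hb hoff hw 1).imp id fun h A => 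
    le_trans (Finset.card_le_card fun q hq => ?_) (h A)
  rw [Finset.mem_filter] at hq ⊢
  refine ⟨hq.1, ?_⟩
  by_contra hne
  exact hq.2 (hd _ hne)

end Pool.Agent.Results.MP_5f6b43_gt.BraidPowersOneOrder
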